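import Pool.Agent.H9x.CL.Defs

/-!
# Discrete metric structures with one predicate with dense values
-/

set_option autoImplicit false

namespace Pool.Agent.H9x.CL

open Set Filter Topology

/-- the signature with one unary predicate symbol -/
def L₀ : Sig where
  Rel := Unit
  ar := fun _ => 1
  mod := fun _ _ => 1
  mod_pos := fun _ _ _ => one_pos

/-- the predicate -/
def Pr (M : Str L₀) (a : M.car) : ℝ := M.rel () fun _ => a

theorem Pr_mem (M : Str L₀) (a : M.car) : Pr M a ∈ Icc (0 : ℝ) 1 := M.rel_mem _ _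

/-- discrete structures in which all values of the predicate are approximated by infinitely many
elements -/
structure Good (M : Str L₀) : Prop where
  disc : ∀ x y : M.car, x ≠ y → dist x y = 1
  dense : ∀ (n : ℕ) (v : Fin n → M.car) (q : ℝ), q ∈ Icc (0 : ℝ) 1 → ∀ ε > 0,
    ∃ y : M.car, (∀ i, v i ≠ y) ∧ |Pr M y - q| < ε

theorem val_mem (M : Str L₀) : ∀ {n : ℕ} (φ : Fm L₀ n) (v : Fin n → M.car),
    val M φ v ∈ Icc (0 : ℝ) 1
  | _, .rel R x, v => M.rel_mem _ _
  | _, .dist i j, v => ⟨dist_nonneg, M.dist_le _ _⟩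
  | _, .con k u hu h01 φ, v => h01 _
  | _, .sup φ, v => by
    obtain ⟨a⟩ := M.nonempty
    have hb : BddAbove (range fun a : M.car => val M φ (Fin.snoc v a)) :=
      ⟨1, by rintro _ ⟨a, rfl⟩; exact (val_mem M φ _).2⟩
    exact ⟨(val_mem M φ (Fin.snoc v a)).1.trans (le_ciSup hb a), ciSup_le fun a => (val_mem M φ _).2⟩
  | _, .inf φ, v => by
    obtain ⟨a⟩ := M.nonempty
    have hb : BddBelow (range fun a : M.car => val M φ (Fin.snoc v a)) :=
      ⟨0, by rintro _ ⟨a, rfl⟩; exact (val_mem M φ _).1⟩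
    exact ⟨le_ciInf fun a => (val_mem M φ _).1, (ciInf_le hb a).trans (val_mem M φ (Fin.snoc v a)).2⟩

theorem bdd_above (M : Str L₀) {n : ℕ} (φ : Fm L₀ (n + 1)) (v : Fin n → M.car) :
    BddAbove (range fun a : M.car => val M φ (Fin.snoc v a)) :=
  ⟨1, by rintro _ ⟨a, rfl⟩; exact (val_mem M φ _).2⟩

theorem bdd_below (M : Str L₀) {n : ℕ} (φ : Fm L₀ (n + 1)) (v : Fin n → M.car) :
    BddBelow (range fun a : M.car => val M φ (Fin.snoc v a)) :=
  ⟨0, by rintro _ ⟨a, rfl⟩; exact (val_mem M φ _).1⟩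

/-- similar tuples -/
def Sim (M N : Str L₀) (δ : ℝ) {n : ℕ} (v : Fin n → M.car) (w : Fin n → N.car) : Prop :=
  (∀ i j, v i = v j ↔ w i = w j) ∧ ∀ i, |Pr M (v i) - Pr N (w i)| < δ

theorem Sim.symm {M N : Str L₀} {δ : ℝ} {n : ℕ} {v : Fin n → M.car} {w : Fin n → N.car}
    (h : Sim M N δ v w) : Sim N M δ w v :=
  ⟨fun i j => (h.1 i j).symm, fun i => by rw [abs_sub_comm]; exact h.2 i⟩

theorem Sim.mono {M N : Str L₀} {δ δ' : ℝ} {n : ℕ} {v : Fin n → M.car} {w : Fin n → N.car}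
    (h : Sim M N δ v w) (hδ : δ ≤ δ') : Sim M N δ' v w :=
  ⟨h.1, fun i => lt_of_lt_of_le (h.2 i) hδ⟩

/-- **Back and forth.** -/
theorem Sim.ext {M N : Str L₀} {δ : ℝ} {n : ℕ} {v : Fin n → M.car} {w : Fin n → N.car}
    (hN : Good N) (hδ : 0 < δ) (h : Sim M N δ v w) (a : M.car) :
    ∃ b : N.car, Sim M N δ (Fin.snoc v a : Fin (n + 1) → M.car)
      (Fin.snoc w b : Fin (n + 1) → N.car) := by
  by_cases ha : ∃ i, v i = a
  · obtain ⟨i, rfl⟩ := ha
    refine ⟨w i, fun j k => ?_, fun j => ?_⟩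
    · refine Fin.lastCases ?_ (fun j => ?_) j <;> refine Fin.lastCases ?_ (fun k => ?_) k
      · simp
      · simp only [Fin.snoc_last, Fin.snoc_castSucc]
        exact h.1 _ _
      · simp only [Fin.snoc_last, Fin.snoc_castSucc]
        exact h.1 _ _
      · simp only [Fin.snoc_castSucc]
        exact h.1 _ _
    · refine Fin.lastCases ?_ (fun j => ?_) j
      · simp only [Fin.snoc_last]
        exact h.2 _
      · simp only [Fin.snoc_castSucc]
        exact h.2 _
  · push Not at ha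
    obtain ⟨b, hb, hb'⟩ := hN.dense n w (Pr M a) (Pr_mem M a) δ hδ
    refine ⟨b, fun j k => ?_, fun j => ?_⟩
    · refine Fin.lastCases ?_ (fun j => ?_) j <;> refine Fin.lastCases ?_ (fun k => ?_) k
      · simp
      · simp only [Fin.snoc_last, Fin.snoc_castSucc]
        exact ⟨fun h1 => absurd h1.symm (ha k), fun h1 => absurd h1.symm (hb k)⟩
      · simp only [Fin.snoc_last, Fin.snoc_castSucc]
        exact ⟨fun h1 => absurd h1 (ha j), fun h1 => absurd h1 (hb j)⟩
      · simp only [Fin.snoc_castSucc]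
        exact h.1 _ _
    · refine Fin.lastCases ?_ (fun j => ?_) j
      · simp only [Fin.snoc_last]
        rw [abs_sub_comm]
        exact hb'
      · simp only [Fin.snoc_castSucc]
        exact h.2 _

theorem sup_close {α β : Type} [Nonempty α] [Nonempty β] {f : α → ℝ} {g : β → ℝ} {ε : ℝ}
    (hf : BddAbove (range f)) (hg : BddAbove (range g)) (h1 : ∀ a, ∃ b, |f a - g b| ≤ ε)
    (h2 : ∀ b, ∃ a, |f a - g b| ≤ ε) : |(⨆ a, f a) - ⨆ b, g b| ≤ ε := by
  rw [abs_le]
  constructor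
  · have : (⨆ b, g b) ≤ (⨆ a, f a) + ε := ciSup_le fun b => by
      obtain ⟨a, ha⟩ := h2 b
      have := (abs_le.1 ha).1
      have := le_ciSup hf a
      linarith
    linarith
  · have : (⨆ a, f a) ≤ (⨆ b, g b) + ε := ciSup_le fun a => by
      obtain ⟨b, hb⟩ := h1 a
      have := (abs_le.1 hb).2
      have := le_ciSup hg b
      linarith
    linarith

theorem inf_close {α β : Type} [Nonempty α] [Nonempty β] {f : α → ℝ} {g : β → ℝ} {ε : ℝ}
    (hf : BddBelow (range f)) (hg : BddBelow (range g)) (h1 : ∀ a, ∃ b, |f a - g b| ≤ ε)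
    (h2 : ∀ b, ∃ a, |f a - g b| ≤ ε) : |(⨅ a, f a) - ⨅ b, g b| ≤ ε := by
  rw [abs_le]
  constructor
  · have : (⨅ b, g b) - ε ≤ ⨅ a, f a := le_ciInf fun a => by
      obtain ⟨b, hb⟩ := h1 a
      have := (abs_le.1 hb).1
      have := ciInf_le hg b
      linarith
    linarith
  · have : (⨅ a, f a) - ε ≤ ⨅ b, g b := le_ciInf fun b => by
      obtain ⟨a, ha⟩ := h2 b
      have := (abs_le.1 ha).2
      have := ciInf_le hf a
      linarith
    linarith

theorem val_rel (M : Str L₀) {n : ℕ} (R : L₀.Rel) (x : Fin 1 → Fin n) (v : Fin n → M.car) :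
    val M (Fm.rel R x) v = Pr M (v (x 0)) := by
  show M.rel () (fun i : Fin 1 => v (x i)) = M.rel () (fun _ : Fin 1 => v (x 0))
  have h : (fun i : Fin 1 => v (x i)) = fun _ => v (x 0) := by
    funext i
    rw [Subsingleton.elim i 0]
  rw [h]

/-- **The values of a formula at similar tuples are close.** -/
theorem bf : ∀ {n : ℕ} (φ : Fm L₀ n) (ε : ℝ), 0 < ε → ∃ δ > 0, ∀ M N : Str L₀, Good M → Good N →
    ∀ (v : Fin n → M.car) (w : Fin n → N.car), Sim M N δ v w → |val M φ v - val N φ w| ≤ ε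
  | _, .rel R x, ε, hε => by
    refine ⟨ε, hε, fun M N _ _ v w h => ?_⟩
    have e1 := val_rel M R x v
    have e2 := val_rel N R x w
    rw [e1, e2]
    exact (h.2 _).le
  | _, .dist i j, ε, hε => by
    refine ⟨1, one_pos, fun M N hM hN v w h => ?_⟩
    show |dist (v i) (v j) - dist (w i) (w j)| ≤ ε
    by_cases hij : v i = v j
    · have h2 := (h.1 i j).1 hij
      rw [hij, h2, dist_self, dist_self, sub_zero, abs_zero]
      exact hε.le
    · have h2 : w i ≠ w j := fun h3 => hij ((h.1 i j).2 h3)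
      rw [hM.disc _ _ hij, hN.disc _ _ h2, sub_self, abs_zero]
      exact hε.le
  | _, .con k u hu h01 φ, ε, hε => by
    have hK : IsCompact (Icc (0 : Fin k → ℝ) 1) := isCompact_Icc
    have huc := hK.uniformContinuousOn_of_continuous hu.continuousOn
    rw [Metric.uniformContinuousOn_iff] at huc
    obtain ⟨η, hη, h1⟩ := huc ε hε
    choose δ hδ h2 using fun i => bf (φ i) (η / 2) (by positivity)
    have h3 : ∀ᶠ d in 𝓝[>] (0 : ℝ), ∀ i, d ≤ δ i := by
      rw [eventually_all]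
      intro i
      have h4 : ∀ᶠ d in 𝓝 (0 : ℝ), d ≤ δ i := by
        filter_upwards [gt_mem_nhds (hδ i)] with d hd
        exact le_of_lt hd
      exact h4.filter_mono nhdsWithin_le_nhds
    obtain ⟨d, hd, hd0⟩ := (h3.and self_mem_nhdsWithin).exists
    refine ⟨d, hd0, fun M N hM hN v w h => ?_⟩
    show |u _ - u _| ≤ ε
    have h4 := h1 (fun i => val M (φ i) v) ⟨fun i => (val_mem M (φ i) v).1,
      fun i => (val_mem M (φ i) v).2⟩ (fun i => val N (φ i) w) ⟨fun i => (val_mem N (φ i) w).1,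
      fun i => (val_mem N (φ i) w).2⟩ (by
        rw [dist_pi_lt_iff hη]
        intro i
        rw [Real.dist_eq]
        have := h2 i M N hM hN v w (h.mono (hd i))
        linarith)
    rw [Real.dist_eq] at h4
    exact h4.le
  | _, .sup φ, ε, hε => by
    obtain ⟨δ, hδ, h1⟩ := bf φ ε hε
    refine ⟨δ, hδ, fun M N hM hN v w h => ?_⟩
    refine sup_close (bdd_above M φ v) (bdd_above N φ w) (fun a => ?_) fun b => ?_
    · obtain ⟨b, hb⟩ := h.ext hN hδ a
      exact ⟨b, h1 M N hM hN _ _ hb⟩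
    · obtain ⟨a, ha⟩ := h.symm.ext hM hδ b
      exact ⟨a, h1 M N hM hN _ _ ha.symm⟩
  | _, .inf φ, ε, hε => by
    obtain ⟨δ, hδ, h1⟩ := bf φ ε hε
    refine ⟨δ, hδ, fun M N hM hN v w h => ?_⟩
    refine inf_close (bdd_below M φ v) (bdd_below N φ w) (fun a => ?_) fun b => ?_
    · obtain ⟨b, hb⟩ := h.ext hN hδ a
      exact ⟨b, h1 M N hM hN _ _ hb⟩
    · obtain ⟨a, ha⟩ := h.symm.ext hM hδ b
      exact ⟨a, h1 M N hM hN _ _ ha.symm⟩

/-- similar tuples for all distances have the same values -/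
theorem bf_eq {n : ℕ} (φ : Fm L₀ n) {M N : Str L₀} (hM : Good M) (hN : Good N)
    {v : Fin n → M.car} {w : Fin n → N.car} (h1 : ∀ i j, v i = v j ↔ w i = w j)
    (h2 : ∀ i, Pr M (v i) = Pr N (w i)) : val M φ v = val N φ w := by
  by_contra hne
  have h3 : 0 < |val M φ v - val N φ w| := abs_pos.2 (sub_ne_zero.2 hne)
  obtain ⟨δ, hδ, h4⟩ := bf φ (|val M φ v - val N φ w| / 2) (by positivity)
  have := h4 M N hM hN v w ⟨h1, fun i => by rw [h2, sub_self, abs_zero]; exact hδ⟩
  linarith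

end Pool.Agent.H9x.CL
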