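import Pool.Agent.H9x.CL.Thy

/-!
# The distance definable sets, and stability
-/

set_option autoImplicit false

namespace Pool.Agent.H9x.CL

open Set Filter Topology

theorem sim_append {M : Str L₀} {m : ℕ} {δ : ℝ} (hδ : 0 < δ) (a : Fin m → M.car)
    (z w : Fin 1 → M.car) (hz : ∀ i, a i ≠ z 0) (hw : ∀ i, a i ≠ w 0)
    (h : |Pr M (z 0) - Pr M (w 0)| < δ) :
    Sim M M δ (Fin.append z a) (Fin.append w a) := by
  refine ⟨fun i j => ?_, fun i => ?_⟩
  · refine Fin.addCases (fun i => ?_) (fun i => ?_) i <;>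
      refine Fin.addCases (fun j => ?_) (fun j => ?_) j
    · simp [Subsingleton.elim i 0, Subsingleton.elim j 0]
    · rw [Fin.append_left, Fin.append_right, Fin.append_left, Fin.append_right,
        Subsingleton.elim i 0]
      exact ⟨fun h1 => absurd h1.symm (hz j), fun h1 => absurd h1.symm (hw j)⟩
    · rw [Fin.append_left, Fin.append_right, Fin.append_left, Fin.append_right,
        Subsingleton.elim j 0]
      exact ⟨fun h1 => absurd h1 (hz i), fun h1 => absurd h1 (hw i)⟩
    · rw [Fin.append_right, Fin.append_right, Fin.append_right, Fin.append_right]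
  · refine Fin.addCases (fun i => ?_) (fun i => ?_) i
    · rw [Fin.append_left, Fin.append_left, Subsingleton.elim i 0]
      exact h
    · rw [Fin.append_right, Fin.append_right, sub_self, abs_zero]
      exact hδ

/-- **The distance definable sets.** -/
theorem dich {M : Str L₀} (hM : Good M) {A : Set M.car} {D : Set (Fin 1 → M.car)}
    (hD : DDef M A D) : (∀ x : Fin 1 → M.car, x 0 ∉ A → x ∈ D) ∨
      ∀ x : Fin 1 → M.car, x 0 ∉ A → x ∉ D := by
  rcases hD.2 with h | h
  · right
    rw [h]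
    exact fun x _ => Set.notMem_empty x
  rcases D.eq_empty_or_nonempty with hne | hne
  · right
    rw [hne]
    exact fun x _ => Set.notMem_empty x
  obtain ⟨θ, hθ⟩ := h (1 / 4) (by norm_num)
  by_contra hcon
  push Not at hcon
  obtain ⟨⟨y, hyA, hyD⟩, x, hxA, hxD⟩ := hcon
  have hin : ∀ z ∈ D, Metric.infDist z D = 0 := fun z hz => Metric.infDist_zero_of_mem hz
  have hout : ∀ z ∉ D, 1 ≤ Metric.infDist z D := fun z hz =>
    (Metric.le_infDist hne).2 fun w hw => by
      have h1 : z 0 ≠ w 0 := fun h2 => hz (by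
        have : z = w := by
          funext i
          rw [Subsingleton.elim i 0, h2]
        rw [this]
        exact hw)
      have h2 := dist_le_pi_dist z w 0
      rw [hM.disc _ _ h1] at h2
      exact h2
  obtain ⟨δ, hδ, hb⟩ := bf θ.φ (1 / 4) (by norm_num)
  set a : Fin θ.m → M.car := fun i => (θ.a i : M.car) with ha
  have step : ∀ z w : Fin 1 → M.car, (∀ i, a i ≠ z 0) → (∀ i, a i ≠ w 0) →
      |Pr M (z 0) - Pr M (w 0)| < δ → z ∈ D → w ∈ D := by
    intro z w hz hw hzw hzD
    by_contra hwD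
    have h1 : |θ.val z - θ.val w| ≤ 1 / 4 := hb M M hM hM _ _ (sim_append hδ a z w hz hw hzw)
    have h2 : |Metric.infDist z D - θ.val z| ≤ 1 / 4 := hθ z
    have h3 : |Metric.infDist w D - θ.val w| ≤ 1 / 4 := hθ w
    rw [hin z hzD] at h2
    have h4 := hout w hwD
    have h5 := abs_le.1 h1
    have h6 := abs_le.1 h2
    have h7 := abs_le.1 h3
    linarith [h5.1, h6.1, h7.2]
  have hxa : ∀ i, a i ≠ x 0 := fun i hi => hxA (hi ▸ (θ.a i).2)
  have hya : ∀ i, a i ≠ y 0 := fun i hi => hyA (hi ▸ (θ.a i).2)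
  obtain ⟨k, hk⟩ := exists_nat_gt (3 / δ)
  have hk0 : (0 : ℝ) < k := lt_trans (by positivity) hk
  set t : ℕ → ℝ := fun j => Pr M (x 0) + (j / k : ℝ) * (Pr M (y 0) - Pr M (x 0)) with ht
  have hPx := Pr_mem M (x 0)
  have hPy := Pr_mem M (y 0)
  have hxy : |Pr M (y 0) - Pr M (x 0)| ≤ 1 := by
    rw [abs_le]
    constructor <;> linarith [hPx.1, hPx.2, hPy.1, hPy.2]
  have htm : ∀ j ≤ k, t j ∈ Icc (0 : ℝ) 1 := by
    intro j hj
    have h1 : (0 : ℝ) ≤ j / k := by positivity
    have h2 : (j / k : ℝ) ≤ 1 := by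
      rw [div_le_one hk0]
      exact_mod_cast hj
    have h3 : t j = (1 - (j / k : ℝ)) * Pr M (x 0) + (j / k : ℝ) * Pr M (y 0) := by
      rw [ht]
      ring
    rw [h3]
    constructor
    · have := mul_nonneg (sub_nonneg.2 h2) hPx.1
      have := mul_nonneg h1 hPy.1
      linarith
    · have := mul_le_mul_of_nonneg_left hPx.2 (sub_nonneg.2 h2)
      have := mul_le_mul_of_nonneg_left hPy.2 h1
      linarith
  have hts : ∀ j, |t (j + 1) - t j| < δ / 3 := by
    intro j
    have h1 : t (j + 1) - t j = (1 / k : ℝ) * (Pr M (y 0) - Pr M (x 0)) := by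
      rw [ht]
      push_cast
      ring
    rw [h1, abs_mul, abs_of_pos (by positivity : (0 : ℝ) < 1 / k)]
    have h2 : (1 / k : ℝ) < δ / 3 := by
      rw [div_lt_div_iff₀ hk0 (by norm_num)]
      rw [div_lt_iff₀ hδ] at hk
      linarith
    calc (1 / k : ℝ) * |Pr M (y 0) - Pr M (x 0)| ≤ (1 / k : ℝ) * 1 :=
          mul_le_mul_of_nonneg_left hxy (by positivity)
      _ < δ / 3 := by rw [mul_one]; exact h2
  have key : ∀ j ≤ k, ∀ z : Fin 1 → M.car, (∀ i, a i ≠ z 0) → |Pr M (z 0) - t j| < δ / 3 →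
      z ∈ D := by
    intro j
    induction j with
    | zero =>
      intro _ z hz hzt
      refine step x z hxa hz ?_ hxD
      have h1 : t 0 = Pr M (x 0) := by
        rw [ht]
        simp
      rw [h1, abs_sub_comm] at hzt
      linarith
    | succ j ih =>
      intro hj z hz hzt
      obtain ⟨y', hy', hy''⟩ := hM.dense θ.m a (t j) (htm j (by omega)) (δ / 3) (by positivity)
      refine step (fun _ => y') z hy' hz ?_ (ih (by omega) _ hy' hy'')
      have h1 := abs_lt.1 hzt
      have h2 := abs_lt.1 hy''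
      have h3 := abs_lt.1 (hts j)
      rw [abs_lt]
      constructor <;> linarith [h1.1, h1.2, h2.1, h2.2, h3.1, h3.2]
  refine hyD (key k le_rfl y hya ?_)
  have h1 : t k = Pr M (y 0) := by
    rw [ht]
    have : (k : ℝ) / k = 1 := div_self hk0.ne'
    simp only [this]
    ring
  rw [h1, sub_self, abs_zero]
  positivity

/-- the complete type of a tuple -/
noncomputable def tp (M : Str L₀) (A : Set M.car) {n : ℕ} (x : Fin n → M.car) : PFm M A n → ℝ :=
  fun θ => θ.val x

theorem isType_tp (M : Str L₀) (A : Set M.car) {n : ℕ} (x : Fin n → M.car) :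
    IsType M A (tp M A x) :=
  fun s ε hε => ⟨x, fun θ _ => by
    show |θ.val x - θ.val x| ≤ ε
    rw [sub_self, abs_zero]
    exact hε.le⟩

/-- the formula with the predicate -/
def prF {M : Str L₀} (A : Set M.car) {n : ℕ} (i : Fin n) : PFm M A n :=
  ⟨0, Fm.rel () fun _ => i, fun i => i.elim0⟩

theorem val_prF {M : Str L₀} (A : Set M.car) {n : ℕ} (i : Fin n) (x : Fin n → M.car) :
    (prF A i).val x = Pr M (x i) := by
  unfold PFm.val prF
  rw [val_rel]
  congr 1
  exact Fin.append_left x _ i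

/-- **A type which is not an intersection of distance definable sets.** -/
theorem tp_not {M : Str L₀} (hM : Good M) {A : Set M.car} {a b : M.car} (ha : a ∉ A) (hb : b ∉ A)
    (hab : Pr M a ≠ Pr M b) :
    ¬ ∃ 𝒟 : Set (Set (Fin 1 → M.car)), (∀ D ∈ 𝒟, DDef M A D) ∧
      Realz M A (tp M A fun _ => a) = ⋂₀ 𝒟 := by
  rintro ⟨𝒟, h1, h2⟩
  have h3 : (fun _ => a : Fin 1 → M.car) ∈ Realz M A (tp M A fun _ => a) := fun θ => rfl
  have h4 : (fun _ => b : Fin 1 → M.car) ∉ Realz M A (tp M A fun _ => a) := by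
    intro h5
    have h6 := h5 (prF A 0)
    rw [tp, val_prF, val_prF] at h6
    exact hab h6.symm
  rw [h2] at h3 h4
  apply h4
  rw [mem_sInter] at h3 ⊢
  intro D hD
  rcases dich hM (h1 D hD) with h5 | h5
  · exact h5 _ hb
  · exact absurd (h3 D hD) (h5 _ ha)

theorem not_enough : ¬ Enough T₀ := by
  intro h
  have h1 : (⟨0, by norm_num⟩ : ↥(Icc (0 : ℝ) 1)).1 ≠ (⟨1, by norm_num⟩ : ↥(Icc (0 : ℝ) 1)).1 :=
    zero_ne_one
  exact tp_not good_M₀ (A := ∅) (a := (⟨0, by norm_num⟩ : ↥(Icc (0 : ℝ) 1)))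
    (b := (⟨1, by norm_num⟩ : ↥(Icc (0 : ℝ) 1))) (Set.notMem_empty _) (Set.notMem_empty _) h1
    (h M₀ ((model_iff _).2 good_M₀) ∅ 1 _ (isType_tp _ _ _))

/-- **The theory is stable.** -/
theorem stable_T₀ : Stable T₀ := by
  rintro m n φ ε hε M hM ⟨a, b, hab⟩
  have hG := (model_iff M).1 hM
  obtain ⟨δ, hδ, hb⟩ := bf φ (ε / 2) (by positivity)
  set 𝒰 : Ultrafilter ℕ := hyperfilter ℕ with h𝒰
  have hlim : ∀ f : ℕ → M.car, ∃ l : ℝ, ∀ᶠ i in (𝒰 : Filter ℕ), |Pr M (f i) - l| < δ / 2 := by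
    intro f
    have h1 : IsCompact (Icc (0 : ℝ) 1) := isCompact_Icc
    obtain ⟨l, _, hl⟩ := h1.ultrafilter_le_nhds (𝒰.map fun i => Pr M (f i)) (by
      rw [Ultrafilter.coe_map, le_principal_iff, mem_map]
      exact univ_mem' fun i => Pr_mem M (f i))
    refine ⟨l, ?_⟩
    have h2 : Tendsto (fun i => Pr M (f i)) 𝒰 (𝓝 l) := hl
    have h3 := h2 (Metric.ball_mem_nhds l (by positivity : 0 < δ / 2))
    filter_upwards [h3] with i hi
    exact hi
  have hdec : ∀ p : ℕ → Prop, ∃ v : Prop, ∀ᶠ i in (𝒰 : Filter ℕ), (p i ↔ v) := by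
    intro p
    by_cases hp : ∀ᶠ i in (𝒰 : Filter ℕ), p i
    · exact ⟨True, hp.mono fun i hi => iff_true_intro hi⟩
    · rw [← Ultrafilter.eventually_not] at hp
      exact ⟨False, hp.mono fun i hi => iff_false_intro hi⟩
  choose la hla using fun u : Fin m => hlim fun i => a i u
  choose lb hlb using fun u : Fin n => hlim fun i => b i u
  choose ea hea using fun u : Fin m => fun u' : Fin m => hdec fun i => a i u = a i u'
  choose eb heb using fun u : Fin n => fun u' : Fin n => hdec fun i => b i u = b i u'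
  choose α hα using fun u : Fin m => fun v : Fin n => fun i : ℕ => hdec fun j => a i u = b j v
  choose α' hα' using fun u : Fin m => fun v : Fin n => hdec fun i => α u v i
  choose β hβ using fun u : Fin m => fun v : Fin n => fun i : ℕ => hdec fun j => a j u = b i v
  choose β' hβ' using fun u : Fin m => fun v : Fin n => hdec fun i => β u v i
  have hαβ : ∀ u v, α' u v ↔ β' u v := by
    intro u v
    constructor
    · intro h
      have h1 : ∀ᶠ i in (𝒰 : Filter ℕ), α u v i := (hα' u v).mono fun i hi => hi.2 h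
      obtain ⟨i₀, hi₀⟩ := h1.exists
      have h2 : ∀ᶠ j in (𝒰 : Filter ℕ), b j v = a i₀ u := (hα u v i₀).mono fun j hj =>
        (hj.2 hi₀).symm
      have h3 : ∀ᶠ i in (𝒰 : Filter ℕ), a i u = a i₀ u := h1.mono fun i hi => by
        obtain ⟨j, hj1, hj2⟩ := ((hα u v i).and h2).exists
        rw [hj1.2 hi, hj2]
      have h4 : ∀ᶠ i in (𝒰 : Filter ℕ), β u v i := h2.mono fun i hi => by
        obtain ⟨j, hj1, hj2⟩ := ((hβ u v i).and h3).exists
        exact hj1.1 (by rw [hj2, hi])
      obtain ⟨i, hi1, hi2⟩ := ((hβ' u v).and h4).exists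
      exact hi1.1 hi2
    · intro h
      have h1 : ∀ᶠ i in (𝒰 : Filter ℕ), β u v i := (hβ' u v).mono fun i hi => hi.2 h
      obtain ⟨i₀, hi₀⟩ := h1.exists
      have h2 : ∀ᶠ j in (𝒰 : Filter ℕ), a j u = b i₀ v := (hβ u v i₀).mono fun j hj =>
        hj.2 hi₀
      have h3 : ∀ᶠ i in (𝒰 : Filter ℕ), b i v = b i₀ v := h1.mono fun i hi => by
        obtain ⟨j, hj1, hj2⟩ := ((hβ u v i).and h2).exists
        rw [← hj1.2 hi, hj2]
      have h4 : ∀ᶠ i in (𝒰 : Filter ℕ), α u v i := h2.mono fun i hi => by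
        obtain ⟨j, hj1, hj2⟩ := ((hα u v i).and h3).exists
        exact hj1.1 (by rw [hj2, hi])
      obtain ⟨i, hi1, hi2⟩ := ((hα' u v).and h4).exists
      exact hi1.1 hi2
  -- a generic index
  have hgen : ∀ᶠ i in (𝒰 : Filter ℕ), (∀ u, |Pr M (a i u) - la u| < δ / 2) ∧
      (∀ u, |Pr M (b i u) - lb u| < δ / 2) ∧ (∀ u u', a i u = a i u' ↔ ea u u') ∧
      (∀ u u', b i u = b i u' ↔ eb u u') :=
    (eventually_all.2 hla).and ((eventually_all.2 hlb).and
      ((eventually_all.2 fun u => eventually_all.2 fun u' => hea u u').and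
        (eventually_all.2 fun u => eventually_all.2 fun u' => heb u u')))
  have hgen2 : ∀ᶠ i in (𝒰 : Filter ℕ), (∀ u v, α u v i ↔ α' u v) ∧ ∀ u v, β u v i ↔ β' u v :=
    (eventually_all.2 fun u => eventually_all.2 fun v => hα' u v).and
      (eventually_all.2 fun u => eventually_all.2 fun v => hβ' u v)
  obtain ⟨i, ⟨hi1, hi2, hi3, hi4⟩, hi5, hi6⟩ := (hgen.and hgen2).exists
  have hgen3 : ∀ᶠ j in (𝒰 : Filter ℕ), (∀ u v, a i u = b j v ↔ α u v i) ∧
      ∀ u v, a j u = b i v ↔ β u v i :=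
    (eventually_all.2 fun u => eventually_all.2 fun v => hα u v i).and
      (eventually_all.2 fun u => eventually_all.2 fun v => hβ u v i)
  have hgt : ∀ᶠ j in (𝒰 : Filter ℕ), i < j := by
    have h1 : (𝒰 : Filter ℕ) ≤ atTop := by
      rw [h𝒰]
      exact Nat.hyperfilter_le_atTop
    exact h1 (eventually_gt_atTop i)
  obtain ⟨j, ⟨⟨hj1, hj2, hj3, hj4⟩, hj5, hj6⟩, hij⟩ := ((hgen.and hgen3).and hgt).exists
  have hsim : Sim M M δ (Fin.append (a i) (b j)) (Fin.append (a j) (b i)) := by
    refine ⟨fun p q => ?_, fun p => ?_⟩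
    · refine Fin.addCases (fun p => ?_) (fun p => ?_) p <;>
        refine Fin.addCases (fun q => ?_) (fun q => ?_) q
      · rw [Fin.append_left, Fin.append_left, Fin.append_left, Fin.append_left]
        exact (hi3 p q).trans (hj3 p q).symm
      · rw [Fin.append_left, Fin.append_right, Fin.append_left, Fin.append_right]
        exact (hj5 p q).trans ((hi5 p q).trans ((hαβ p q).trans ((hi6 p q).symm.trans
          (hj6 p q).symm)))
      · rw [Fin.append_right, Fin.append_left, Fin.append_right, Fin.append_left]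
        rw [eq_comm, eq_comm (a := b i p)]
        exact (hj5 q p).trans ((hi5 q p).trans ((hαβ q p).trans ((hi6 q p).symm.trans
          (hj6 q p).symm)))
      · rw [Fin.append_right, Fin.append_right, Fin.append_right, Fin.append_right]
        exact (hj4 p q).trans (hi4 p q).symm
    · refine Fin.addCases (fun p => ?_) (fun p => ?_) p
      · rw [Fin.append_left, Fin.append_left]
        have h1 := abs_lt.1 (hi1 p)
        have h2 := abs_lt.1 (hj1 p)
        rw [abs_lt]
        constructor <;> linarith [h1.1, h1.2, h2.1, h2.2]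
      · rw [Fin.append_right, Fin.append_right]
        have h1 := abs_lt.1 (hi2 p)
        have h2 := abs_lt.1 (hj2 p)
        rw [abs_lt]
        constructor <;> linarith [h1.1, h1.2, h2.1, h2.2]
  have h1 := hb M M hG hG _ _ hsim
  have h2 := hab i j hij
  linarith

end Pool.Agent.H9x.CL
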