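import Mathlib

/-!
# Continuous logic for metric structures

Relational metric signatures, metric structures, formulas of continuous logic and their values,
theories and models, definable predicates, distance definable sets, complete types, stable theories.
-/

set_option autoImplicit false

namespace Pool.Agent.H9x.CL

/-- A relational signature of continuous logic: predicate symbols with their arities and their
moduli of uniform continuity. -/
structure Sig : Type 1 where
  /-- the predicate symbols -/
  Rel : Type
  /-- the arities -/
  ar : Rel → ℕ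
  /-- the moduli of uniform continuity -/
  mod : Rel → ℝ → ℝ
  mod_pos : ∀ (R : Rel) (ε : ℝ), 0 < ε → 0 < mod R ε

/-- A metric structure: a nonempty complete metric space of diameter at most one, with predicates
with values in `[0, 1]` which respect the moduli of uniform continuity. -/
structure Str (L : Sig) : Type 1 where
  /-- the universe -/
  car : Type
  /-- the metric -/
  metric : MetricSpace car
  nonempty : Nonempty car
  complete : CompleteSpace car
  dist_le : ∀ x y : car, dist x y ≤ 1
  /-- the predicates -/
  rel : (R : L.Rel) → (Fin (L.ar R) → car) → ℝ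
  rel_mem : ∀ (R : L.Rel) (x : Fin (L.ar R) → car), rel R x ∈ Set.Icc (0 : ℝ) 1
  rel_unif : ∀ (R : L.Rel) (ε : ℝ), 0 < ε → ∀ x y : Fin (L.ar R) → car,
    (∀ i, dist (x i) (y i) < L.mod R ε) → |rel R x - rel R y| ≤ ε

attribute [instance] Str.metric Str.nonempty Str.complete

/-- Formulas with the free variables `x₀, …, xₙ₋₁`: atomic formulas are predicate symbols applied to
variables and the distance of two variables; connectives are all continuous functions with values in
`[0, 1]`; quantifiers are the supremum and the infimum over the variable `xₙ`. -/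
inductive Fm (L : Sig) : ℕ → Type
  | rel {n : ℕ} (R : L.Rel) (x : Fin (L.ar R) → Fin n) : Fm L n
  | dist {n : ℕ} (i j : Fin n) : Fm L n
  | con {n : ℕ} (k : ℕ) (u : (Fin k → ℝ) → ℝ) (hu : Continuous u)
      (h01 : ∀ z, u z ∈ Set.Icc (0 : ℝ) 1) (φ : Fin k → Fm L n) : Fm L n
  | sup {n : ℕ} (φ : Fm L (n + 1)) : Fm L n
  | inf {n : ℕ} (φ : Fm L (n + 1)) : Fm L n

variable {L : Sig}

/-- The value of a formula in a structure. -/
noncomputable def val (M : Str L) : {n : ℕ} → Fm L n → (Fin n → M.car) → ℝ
  | _, .rel R x, v => M.rel R fun i => v (x i)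
  | _, .dist i j, v => dist (v i) (v j)
  | _, .con _ u _ _ φ, v => u fun i => val M (φ i) v
  | _, .sup φ, v => ⨆ a : M.car, val M φ (Fin.snoc v a)
  | _, .inf φ, v => ⨅ a : M.car, val M φ (Fin.snoc v a)

/-- The structure `M` is a model of the theory `T` (a set of sentences): all sentences in `T` have
the value `0`. -/
def Model (T : Set (Fm L 0)) (M : Str L) : Prop := ∀ φ ∈ T, val M φ Fin.elim0 = 0

/-- The theory `T` is consistent and complete: it has a model, and every sentence has the same value
in all models. -/
def IsComplete (T : Set (Fm L 0)) : Prop :=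
  (∃ M, Model T M) ∧ ∀ M N, Model T M → Model T N → ∀ φ : Fm L 0,
    val M φ Fin.elim0 = val N φ Fin.elim0

/-- Formulas with the free variables `x₀, …, xₙ₋₁` and parameters in `A`. -/
structure PFm (M : Str L) (A : Set M.car) (n : ℕ) : Type where
  /-- the number of parameters -/
  m : ℕ
  /-- the formula -/
  φ : Fm L (n + m)
  /-- the parameters -/
  a : Fin m → A

/-- The value of a formula with parameters. -/
noncomputable def PFm.val {M : Str L} {A : Set M.car} {n : ℕ} (θ : PFm M A n)
    (x : Fin n → M.car) : ℝ := CL.val M θ.φ (Fin.append x fun i => (θ.a i : M.car))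

/-- A definable predicate over `A`: a uniform limit of formulas with parameters in `A`. -/
def DefPred (M : Str L) (A : Set M.car) {n : ℕ} (f : (Fin n → M.car) → ℝ) : Prop :=
  ∀ ε > 0, ∃ θ : PFm M A n, ∀ x, |f x - θ.val x| ≤ ε

/-- The set `D` is d-definable in `M` over `A`: it is closed, and the distance from `D` is a
definable predicate over `A` (the empty set is admitted). Here the distance of two tuples is the
largest distance of their coordinates. -/
def DDef (M : Str L) (A : Set M.car) {n : ℕ} (D : Set (Fin n → M.car)) : Prop :=
  IsClosed D ∧ (D = ∅ ∨ DefPred M A fun x => Metric.infDist x D)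

/-- A complete `n`-type over `A`: an assignment of values to the formulas with parameters in `A`
which is approximately finitely satisfiable in `M`. -/
def IsType (M : Str L) (A : Set M.car) {n : ℕ} (p : PFm M A n → ℝ) : Prop :=
  ∀ s : Finset (PFm M A n), ∀ ε > 0, ∃ x : Fin n → M.car, ∀ θ ∈ s, |θ.val x - p θ| ≤ ε

/-- The realizations of a type in `M`. -/
def Realz (M : Str L) (A : Set M.car) {n : ℕ} (p : PFm M A n → ℝ) : Set (Fin n → M.car) :=
  {x | ∀ θ, θ.val x = p θ}

/-- The theory `T` has enough d-definable sets: for all models `M` of `T`, all sets `A` in `M` and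
all complete types `p` over `A`, the set of the realizations of `p` in `M` is an intersection of
sets which are d-definable in `M` over `A`. -/
def Enough (T : Set (Fm L 0)) : Prop :=
  ∀ M : Str L, Model T M → ∀ (A : Set M.car) (n : ℕ) (p : PFm M A n → ℝ), IsType M A p →
    ∃ 𝒟 : Set (Set (Fin n → M.car)), (∀ D ∈ 𝒟, DDef M A D) ∧ Realz M A p = ⋂₀ 𝒟

/-- The theory `T` is stable: no formula has the order property in a model of `T`. -/
def Stable (T : Set (Fm L 0)) : Prop :=
  ∀ (m n : ℕ) (φ : Fm L (m + n)) (ε : ℝ), 0 < ε → ∀ M : Str L, Model T M →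
    ¬ ∃ (a : ℕ → Fin m → M.car) (b : ℕ → Fin n → M.car), ∀ i j, i < j →
      ε ≤ |val M φ (Fin.append (a i) (b j)) - val M φ (Fin.append (a j) (b i))|

/-- The number of types: for every model `M` of `T` and every infinite cardinal `κ` which is at
least the cardinality of the continuum, there are at most `κ` types over sets of at most `κ`
elements of `M`. -/
def FewTypes (T : Set (Fm L 0)) : Prop :=
  ∀ M : Str L, Model T M → ∀ (A : Set M.car) (n : ℕ) (κ : Cardinal.{0}), Cardinal.continuum ≤ κ →
    Cardinal.mk A ≤ κ → Cardinal.mk {p : PFm M A n → ℝ // IsType M A p} ≤ κ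

end Pool.Agent.H9x.CL
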