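import Pool.Agent.H9x.CL.Ddef

/-!
# The number of types
-/

set_option autoImplicit false

namespace Pool.Agent.H9x.CL

open Set Filter Topology Cardinal

variable {M : Str L₀} {A : Set M.car} {n : ℕ}

/-- the distance of two variables -/
def ddF (A : Set M.car) (i j : Fin n) : PFm M A n := ⟨0, Fm.dist i j, fun i => i.elim0⟩

theorem val_ddF (i j : Fin n) (x : Fin n → M.car) : (ddF A i j).val x = dist (x i) (x j) := by
  show dist (Fin.append x _ (Fin.castAdd 0 i)) (Fin.append x _ (Fin.castAdd 0 j)) = _
  rw [Fin.append_left, Fin.append_left]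

/-- the distance of a variable from a parameter -/
def dpF (i : Fin n) (c : A) : PFm M A n :=
  ⟨1, Fm.dist (Fin.castAdd 1 i) (Fin.natAdd n 0), fun _ => c⟩

theorem val_dpF (i : Fin n) (c : A) (x : Fin n → M.car) : (dpF i c).val x = dist (x i) c := by
  show dist (Fin.append x (fun _ : Fin 1 => (c : M.car)) (Fin.castAdd 1 i))
    (Fin.append x (fun _ : Fin 1 => (c : M.car)) (Fin.natAdd n (0 : Fin 1))) = _
  rw [Fin.append_left, Fin.append_right]

theorem dpF_iff (hG : Good M) {p : PFm M A n → ℝ} {x : Fin n → M.car} {i : Fin n} {c : A}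
    (h : |(dpF i c).val x - p (dpF i c)| ≤ 1 / 4) : x i = c ↔ p (dpF i c) < 1 / 2 := by
  rw [val_dpF] at h
  have h1 := abs_le.1 h
  constructor
  · intro h2
    rw [h2, dist_self] at h1
    linarith [h1.1]
  · intro h2
    by_contra h3
    rw [hG.disc _ _ h3] at h1
    linarith [h1.2]

open Classical in
/-- the parameter which is equal to a variable -/
noncomputable def op (p : PFm M A n → ℝ) (i : Fin n) : Option A :=
  if h : ∃ c : A, p (dpF i c) < 1 / 2 then some h.choose else none

theorem op_iff (hG : Good M) {p : PFm M A n → ℝ} (hp : IsType M A p) (i : Fin n) (c : A) :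
    p (dpF i c) < 1 / 2 ↔ op p i = some c := by
  classical
  unfold op
  constructor
  · intro h
    have h1 : ∃ c : A, p (dpF i c) < 1 / 2 := ⟨c, h⟩
    rw [dif_pos h1]
    obtain ⟨x, hx⟩ := hp {dpF i c, dpF i h1.choose} (1 / 4) (by norm_num)
    have h2 := (dpF_iff hG (hx (dpF i c) (by simp))).2 h
    have h3 := (dpF_iff hG (hx (dpF i h1.choose) (by simp))).2 h1.choose_spec
    congr 1
    exact Subtype.ext (h3.symm.trans h2)
  · intro h
    split_ifs at h with h1
    · rw [← Option.some.inj h]
      exact h1.choose_spec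

/-- the data of a type -/
noncomputable def dt (p : PFm M A n → ℝ) :
    (Fin n → ℝ) × (Fin n → Fin n → ℝ) × (Fin n → Option A) :=
  (fun i => p (prF A i), fun i j => p (ddF A i j), op p)

theorem dt_inj (hG : Good M) {p q : PFm M A n → ℝ} (hp : IsType M A p) (hq : IsType M A q)
    (h : dt p = dt q) : p = q := by
  classical
  funext θ
  by_contra hne
  set ε := |p θ - q θ| with hε
  have hε0 : 0 < ε := abs_pos.2 (sub_ne_zero.2 hne)
  obtain ⟨δ, hδ, hb⟩ := bf θ.φ (ε / 4) (by positivity)
  simp only [dt, Prod.mk.injEq] at h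
  obtain ⟨e1, e2, e3⟩ := h
  set s : Finset (PFm M A n) := {θ} ∪ (Finset.univ.image fun i : Fin n => prF A i) ∪
    (Finset.univ.image fun i : Fin n × Fin n => ddF A i.1 i.2) ∪
    (Finset.univ.image fun i : Fin n × Fin θ.m => dpF i.1 (θ.a i.2)) with hs
  have m1 : θ ∈ s := by simp [hs]
  have m2 : ∀ i, prF A i ∈ s := fun i => by
    simp only [hs, Finset.mem_union]
    exact Or.inl (Or.inl (Or.inr (Finset.mem_image_of_mem _ (Finset.mem_univ i))))
  have m3 : ∀ i j, ddF A i j ∈ s := fun i j => by
    simp only [hs, Finset.mem_union]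
    exact Or.inl (Or.inr (Finset.mem_image_of_mem (fun i : Fin n × Fin n => ddF A i.1 i.2)
      (Finset.mem_univ (i, j))))
  have m4 : ∀ i k, dpF i (θ.a k) ∈ s := fun i k => by
    simp only [hs, Finset.mem_union]
    exact Or.inr (Finset.mem_image_of_mem (fun i : Fin n × Fin θ.m => dpF i.1 (θ.a i.2))
      (Finset.mem_univ (i, k)))
  set η := min (ε / 8) (min (δ / 3) (1 / 4)) with hη
  have hη0 : 0 < η := by positivity
  have l1 : η ≤ ε / 8 := min_le_left _ _
  have l2 : η ≤ δ / 3 := (min_le_right _ _).trans (min_le_left _ _)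
  have l3 : η ≤ 1 / 4 := (min_le_right _ _).trans (min_le_right _ _)
  obtain ⟨x, hx⟩ := hp s η hη0
  obtain ⟨y, hy⟩ := hq s η hη0
  have hpar : ∀ i k, x i = θ.a k ↔ y i = θ.a k := fun i k => by
    rw [dpF_iff hG ((hx _ (m4 i k)).trans l3), dpF_iff hG ((hy _ (m4 i k)).trans l3),
      op_iff hG hp, op_iff hG hq, e3]
  have hvar : ∀ i j, x i = x j ↔ y i = y j := fun i j => by
    have h1 := hx _ (m3 i j)
    have h2 := hy _ (m3 i j)
    have h3 : p (ddF A i j) = q (ddF A i j) := congrFun (congrFun e2 i) j
    rw [val_ddF, h3] at h1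
    rw [val_ddF] at h2
    have h4 := abs_le.1 h1
    have h5 := abs_le.1 h2
    constructor
    · intro h6
      by_contra h7
      rw [h6, dist_self] at h4
      rw [hG.disc _ _ h7] at h5
      linarith [h4.1, h5.2]
    · intro h6
      by_contra h7
      rw [h6, dist_self] at h5
      rw [hG.disc _ _ h7] at h4
      linarith [h4.2, h5.1]
  have hsim : Sim M M δ (Fin.append x fun k => (θ.a k : M.car))
      (Fin.append y fun k => (θ.a k : M.car)) := by
    refine ⟨fun u v => ?_, fun u => ?_⟩
    · refine Fin.addCases (fun u => ?_) (fun u => ?_) u <;>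
        refine Fin.addCases (fun v => ?_) (fun v => ?_) v
      · rw [Fin.append_left, Fin.append_left, Fin.append_left, Fin.append_left]
        exact hvar u v
      · rw [Fin.append_left, Fin.append_right, Fin.append_left, Fin.append_right]
        exact hpar u v
      · rw [Fin.append_right, Fin.append_left, Fin.append_right, Fin.append_left]
        rw [eq_comm, eq_comm (b := y v)]
        exact hpar v u
      · rw [Fin.append_right, Fin.append_right, Fin.append_right, Fin.append_right]
    · refine Fin.addCases (fun u => ?_) (fun u => ?_) u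
      · rw [Fin.append_left, Fin.append_left]
        have h1 := hx _ (m2 u)
        have h2 := hy _ (m2 u)
        have h3 : p (prF A u) = q (prF A u) := congrFun e1 u
        rw [val_prF, h3] at h1
        rw [val_prF] at h2
        have h4 := abs_le.1 h1
        have h5 := abs_le.1 h2
        rw [abs_lt]
        constructor <;> linarith [h4.1, h4.2, h5.1, h5.2]
      · rw [Fin.append_right, Fin.append_right, sub_self, abs_zero]
        exact hδ
  have h1 : |θ.val x - θ.val y| ≤ ε / 4 := hb M M hG hG _ _ hsim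
  have h2 := abs_le.1 h1
  have h3 := abs_le.1 (hx θ m1)
  have h4 := abs_le.1 (hy θ m1)
  have h5 : |p θ - q θ| ≤ ε / 2 := by
    rw [abs_le]
    constructor <;> linarith [h2.1, h2.2, h3.1, h3.2, h4.1, h4.2]
  rw [← hε] at h5
  linarith

/-- **There are few types.** -/
theorem few_T₀ : FewTypes T₀ := by
  intro M hM A n κ hκ hA
  have hG := (model_iff M).1 hM
  have h0 : ℵ₀ ≤ κ := aleph0_le_continuum.trans hκ
  have hinj : Function.Injective fun p : {p : PFm M A n → ℝ // IsType M A p} => dt p.1 :=
    fun p q h => Subtype.ext (dt_inj hG p.2 q.2 h)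
  refine (mk_le_of_injective hinj).trans ?_
  have hpow : ∀ (α : Type), #α ≤ κ → #(Fin n → α) ≤ κ := by
    intro α hα
    rw [← power_def, mk_fin]
    exact (power_le_power_right hα).trans (power_nat_le h0)
  have hR : #ℝ ≤ κ := by
    rw [mk_real]
    exact hκ
  have hO : #(Option A) ≤ κ := by
    rw [mk_option]
    exact add_le_of_le h0 hA (one_le_aleph0.trans h0)
  rw [mk_prod, mk_prod, lift_id, lift_id, lift_id, lift_id]
  exact mul_le_of_le h0 (hpow _ hR) (mul_le_of_le h0 (hpow _ (hpow _ hR)) (hpow _ hO))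

end Pool.Agent.H9x.CL
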