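import Pool.Agent.H9x.CL.Bf

/-!
# The theory
-/

set_option autoImplicit false

namespace Pool.Agent.H9x.CL

open Set Filter Topology

/-- the points -/
def Pt : Type := ↥(Icc (0 : ℝ) 1)

open Classical in
noncomputable instance : MetricSpace Pt where
  dist x y := if x = y then 0 else 1
  dist_self x := if_pos rfl
  dist_comm x y := by
    by_cases h : x = y
    · rw [h]
    · rw [if_neg h, if_neg fun h' => h h'.symm]
  dist_triangle x y z := by
    by_cases h : x = z
    · rw [if_pos h]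
      split_ifs <;> norm_num
    · rw [if_neg h]
      by_cases h1 : x = y
      · rw [if_pos h1, if_neg fun h2 => h (h1.trans h2)]
        norm_num
      · rw [if_neg h1]
        split_ifs <;> norm_num
  eq_of_dist_eq_zero {x y} h := by
    by_contra hne
    rw [if_neg hne] at h
    exact one_ne_zero h

theorem dist_pt {x y : Pt} (h : x ≠ y) : dist x y = 1 := by
  classical
  exact if_neg h

theorem eq_of_dist_pt {x y : Pt} (h : dist x y < 1) : x = y := by
  by_contra hne
  rw [dist_pt hne] at h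
  exact lt_irrefl _ h

instance : CompleteSpace Pt := by
  refine Metric.complete_of_cauchySeq_tendsto fun u hu => ?_
  obtain ⟨N, hN⟩ := Metric.cauchySeq_iff'.1 hu 1 one_pos
  refine ⟨u N, tendsto_atTop_of_eventually_const (i₀ := N) fun i hi => ?_⟩
  exact eq_of_dist_pt (hN i hi)

/-- the value of the predicate -/
def p0 (x : Fin 1 → Pt) : ℝ := ((x 0 : Pt) : ↥(Icc (0 : ℝ) 1)).1

theorem p0_mem (x : Fin 1 → Pt) : p0 x ∈ Icc (0 : ℝ) 1 := ((x 0 : Pt) : ↥(Icc (0 : ℝ) 1)).2

theorem p0_unif (x y : Fin 1 → Pt) (h : ∀ i, dist (x i) (y i) < 1) {ε : ℝ} (hε : 0 < ε) :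
    |p0 x - p0 y| ≤ ε := by
  have h1 : x 0 = y 0 := eq_of_dist_pt (h 0)
  unfold p0
  rw [h1, sub_self, abs_zero]
  exact hε.le

/-- the structure on the unit interval -/
noncomputable def M₀ : Str L₀ where
  car := Pt
  metric := inferInstance
  nonempty := ⟨⟨0, by norm_num⟩⟩
  complete := inferInstance
  dist_le := fun x y => by
    by_cases h : x = y
    · rw [h, dist_self]
      exact zero_le_one
    · rw [dist_pt h]
  rel := fun _ x => p0 x
  rel_mem := fun _ x => p0_mem x
  rel_unif := fun _ ε hε x y h => p0_unif x y h hε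

theorem good_M₀ : Good M₀ := by
  refine ⟨fun x y h => dist_pt h, fun n v q hq ε hε => ?_⟩
  have h1 : (Icc (max 0 (q - ε / 2)) (min 1 (q + ε / 2))).Infinite := by
    refine Set.Icc_infinite ?_
    rw [max_lt_iff, lt_min_iff, lt_min_iff]
    exact ⟨⟨one_pos, by linarith [hq.1]⟩, by linarith [hq.2], by linarith⟩
  have h2 : (range fun i => ((v i : Pt) : ↥(Icc (0 : ℝ) 1)).1).Finite := Set.finite_range _
  obtain ⟨t, ht, ht'⟩ := (h1.sdiff h2).nonempty
  obtain ⟨h3, h4⟩ := ht
  rw [max_le_iff] at h3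
  rw [le_min_iff] at h4
  refine ⟨(⟨t, h3.1, h4.1⟩ : ↥(Icc (0 : ℝ) 1)), fun i hi => ht' ⟨i, ?_⟩, ?_⟩
  · show ((v i : Pt) : ↥(Icc (0 : ℝ) 1)).1 = t
    rw [hi]
  · show |t - q| < ε
    rw [abs_lt]
    constructor <;> linarith

/-- the theory -/
def T₀ : Set (Fm L₀ 0) := {φ | val M₀ φ Fin.elim0 = 0}

/-- all suprema -/
def supN : (n : ℕ) → Fm L₀ n → Fm L₀ 0
  | 0, φ => φ
  | n + 1, φ => supN n (Fm.sup φ)

theorem val_supN (M : Str L₀) : ∀ (n : ℕ) (φ : Fm L₀ n),
    val M (supN n φ) Fin.elim0 = 0 ↔ ∀ v, val M φ v = 0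
  | 0, φ => ⟨fun h v => by rw [Subsingleton.elim v Fin.elim0]; exact h, fun h => h _⟩
  | n + 1, φ => by
    refine (val_supN M n (Fm.sup φ)).trans ⟨fun h v => ?_, fun h v => ?_⟩
    · have h1 : (⨆ a : M.car, val M φ (Fin.snoc (Fin.init v) a)) = 0 := h (Fin.init v)
      have h2 := le_ciSup (bdd_above M φ (Fin.init v)) (v (Fin.last n))
      rw [h1] at h2
      simp only [Fin.snoc_init_self] at h2
      exact le_antisymm h2 (val_mem M φ v).1
    · show (⨆ a : M.car, val M φ (Fin.snoc v a)) = 0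
      have h1 : (fun a : M.car => val M φ (Fin.snoc v a)) = fun _ => 0 := funext fun a => h _
      obtain ⟨a⟩ := M.nonempty
      have : Nonempty M.car := ⟨a⟩
      rw [h1, ciSup_const]

theorem clip_mem (t : ℝ) : max 0 (min 1 t) ∈ Icc (0 : ℝ) 1 :=
  ⟨le_max_left _ _, max_le zero_le_one (min_le_left _ _)⟩

/-- the metric is discrete -/
noncomputable def s₁ : Fm L₀ 0 := supN 2 (Fm.con 1 (fun z => max 0 (min 1 (min (z 0) (1 - z 0))))
  (by fun_prop) (fun z => clip_mem _) fun _ => Fm.dist 0 1)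

/-- the values are dense -/
noncomputable def s₂ (n : ℕ) (q : ℝ) : Fm L₀ 0 := supN n (Fm.inf (Fm.con (n + 1)
  (fun z => max 0 (min 1 (|z (Fin.last n) - q| + ∑ i : Fin n, (1 - z i.castSucc))))
  (by fun_prop) (fun z => clip_mem _)
  (fun i => Fin.lastCases (motive := fun _ => Fm L₀ (n + 1)) (Fm.rel () fun _ => Fin.last n)
    (fun i => Fm.dist i.castSucc (Fin.last n)) i)))

theorem val_s₁ (M : Str L₀) : val M s₁ Fin.elim0 = 0 ↔
    ∀ x y : M.car, dist x y = 0 ∨ dist x y = 1 := by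
  unfold s₁
  rw [val_supN]
  have h1 : ∀ v : Fin 2 → M.car, val M (Fm.con 1 (fun z => max 0 (min 1 (min (z 0) (1 - z 0))))
      (by fun_prop) (fun z => clip_mem _) fun _ => Fm.dist 0 1) v =
      max 0 (min 1 (min (dist (v 0) (v 1)) (1 - dist (v 0) (v 1)))) := fun v => rfl
  simp only [h1]
  constructor
  · intro h x y
    have h2 := h ![x, y]
    simp only [Matrix.cons_val_zero, Matrix.cons_val_one] at h2
    have h3 : min 1 (min (dist x y) (1 - dist x y)) ≤ 0 := by
      rw [← h2]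
      exact le_max_right _ _
    rcases min_le_iff.1 h3 with h4 | h4
    · exact absurd h4 (by norm_num)
    · rcases min_le_iff.1 h4 with h5 | h5
      · exact Or.inl (le_antisymm h5 dist_nonneg)
      · exact Or.inr (le_antisymm (M.dist_le _ _) (by linarith))
  · intro h v
    rcases h (v 0) (v 1) with h2 | h2 <;> rw [h2] <;> norm_num

theorem val_s₂_in (M : Str L₀) (n : ℕ) (q : ℝ) (v : Fin n → M.car) (y : M.car) :
    val M (Fm.con (n + 1)
      (fun z => max 0 (min 1 (|z (Fin.last n) - q| + ∑ i : Fin n, (1 - z i.castSucc))))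
      (by fun_prop) (fun z => clip_mem _)
      (fun i => Fin.lastCases (motive := fun _ => Fm L₀ (n + 1)) (Fm.rel () fun _ => Fin.last n)
        (fun i => Fm.dist i.castSucc (Fin.last n)) i)) (Fin.snoc v y) =
    max 0 (min 1 (|Pr M y - q| + ∑ i : Fin n, (1 - dist (v i) y))) := by
  simp only [val, Fin.lastCases_last, Fin.lastCases_castSucc, Fin.snoc_last, Fin.snoc_castSucc]
  rfl

theorem val_s₂ (M : Str L₀) (hd : ∀ x y : M.car, x ≠ y → dist x y = 1) (n : ℕ) (q : ℝ) :
    val M (s₂ n q) Fin.elim0 = 0 ↔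
    ∀ v : Fin n → M.car, ∀ ε > 0, ∃ y : M.car, (∀ i, v i ≠ y) ∧ |Pr M y - q| < ε := by
  unfold s₂
  rw [val_supN]
  refine forall_congr' fun v => ?_
  obtain ⟨a₀⟩ := M.nonempty
  have : Nonempty M.car := ⟨a₀⟩
  show (⨅ y : M.car, val M _ (Fin.snoc v y)) = 0 ↔ _
  simp only [val_s₂_in]
  have hb : BddBelow (range fun y : M.car =>
      max 0 (min 1 (|Pr M y - q| + ∑ i : Fin n, (1 - dist (v i) y)))) :=
    ⟨0, by rintro _ ⟨y, rfl⟩; exact le_max_left _ _⟩
  constructor
  · intro h ε hε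
    have h1 : (⨅ y : M.car, max 0 (min 1 (|Pr M y - q| + ∑ i : Fin n, (1 - dist (v i) y)))) <
        min ε 1 := by
      rw [h]
      exact lt_min hε one_pos
    obtain ⟨y, hy⟩ := exists_lt_of_ciInf_lt h1
    obtain ⟨_, h2⟩ := max_lt_iff.1 hy
    have h3 : |Pr M y - q| + ∑ i : Fin n, (1 - dist (v i) y) < min ε 1 := by
      rcases min_lt_iff.1 h2 with h3 | h3
      · exact absurd (h3.trans_le (min_le_right _ _)) (lt_irrefl _)
      · exact h3
    have h4 : ∀ i, 0 ≤ 1 - dist (v i) y := fun i => by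
      have := M.dist_le (v i) y
      linarith
    have h5 : 0 ≤ ∑ i : Fin n, (1 - dist (v i) y) := Finset.sum_nonneg fun i _ => h4 i
    obtain ⟨h6, h7⟩ := lt_min_iff.1 h3
    refine ⟨y, fun i hi => ?_, by linarith⟩
    have h8 := Finset.single_le_sum (fun i _ => h4 i) (Finset.mem_univ i)
    rw [hi, dist_self] at h8
    have := abs_nonneg (Pr M y - q)
    linarith
  · intro h
    refine le_antisymm (le_of_forall_pos_le_add fun ε hε => ?_) (le_ciInf fun y => le_max_left _ _)
    obtain ⟨y, hy, hy'⟩ := h ε hε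
    refine (ciInf_le hb y).trans ?_
    have h1 : ∑ i : Fin n, (1 - dist (v i) y) = 0 :=
      Finset.sum_eq_zero fun i _ => by rw [hd _ _ (hy i), sub_self]
    rw [h1, add_zero, zero_add]
    exact max_le hε.le ((min_le_right _ _).trans hy'.le)

/-- **The models of the theory.** -/
theorem model_iff (M : Str L₀) : Model T₀ M ↔ Good M := by
  constructor
  · intro h
    have h1 : s₁ ∈ T₀ := (val_s₁ M₀).2 fun x y => by
      by_cases hxy : x = y
      · left
        rw [hxy, dist_self]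
      · right
        exact good_M₀.disc x y hxy
    have h2 : ∀ x y : M.car, x ≠ y → dist x y = 1 := fun x y hxy => by
      rcases (val_s₁ M).1 (h _ h1) x y with h3 | h3
      · exact absurd (dist_eq_zero.1 h3) hxy
      · exact h3
    refine ⟨h2, fun n v q hq ε hε => ?_⟩
    have h3 : s₂ n q ∈ T₀ := (val_s₂ M₀ good_M₀.disc n q).2 fun v ε hε =>
      good_M₀.dense n v q hq ε hε
    exact (val_s₂ M h2 n q).1 (h _ h3) v ε hε
  · intro h φ hφ
    rw [← (show val M₀ φ Fin.elim0 = 0 from hφ)]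
    exact bf_eq φ h good_M₀ (fun i => i.elim0) fun i => i.elim0

theorem complete_T₀ : IsComplete T₀ :=
  ⟨⟨M₀, (model_iff _).2 good_M₀⟩, fun M N hM hN φ =>
    bf_eq φ ((model_iff M).1 hM) ((model_iff N).1 hN) (fun i => i.elim0) fun i => i.elim0⟩

end Pool.Agent.H9x.CL
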